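import Pool.Agent.Lib_helper99.IDP.Geom

set_option autoImplicit false
open scoped Pointwise
open Finset

namespace Pool.Agent.Lib_helper99.IDP

/-- parametrisation of the lattice points of the `t`-th dilate -/
def TT (n N b t : ℕ) : Finset (Σ _ : ℕ, Σ _ : (Fin n →₀ ℕ), (Fin n → ℕ)) :=
  (range (t + 1)).sigma (fun u => (finsuppAntidiag (univ : Finset (Fin n)) (t - u)).sigma
    (fun l => Fintype.piFinset (fun j => range (N * (u + b * l j) + 1))))

lemma card_TT (n N b t : ℕ) : (TT n N b t).card =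
    ∑ u ∈ range (t + 1), ∑ l ∈ finsuppAntidiag (univ : Finset (Fin n)) (t - u),
      ∏ j : Fin n, (N * (u + b * l j) + 1) := by
  unfold TT
  rw [Finset.card_sigma]
  apply Finset.sum_congr rfl
  intro u _
  rw [Finset.card_sigma]
  apply Finset.sum_congr rfl
  intro l _
  rw [Fintype.card_piFinset]
  simp

/-- the lattice point of a parameter -/
def phi (n : ℕ) (p : Σ _ : ℕ, Σ _ : (Fin n →₀ ℕ), (Fin n → ℕ)) : Fin (n + n) → ℤ :=
  mk n (fun j => (p.2.1 j : ℤ)) (fun j => (p.2.2 j : ℤ))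

lemma mem_TT (n N b t : ℕ) (p : Σ _ : ℕ, Σ _ : (Fin n →₀ ℕ), (Fin n → ℕ)) :
    p ∈ TT n N b t ↔ p.1 ≤ t ∧ ∑ j, p.2.1 j = t - p.1 ∧
      ∀ j, p.2.2 j ≤ N * (p.1 + b * p.2.1 j) := by
  unfold TT
  rw [Finset.mem_sigma, Finset.mem_sigma, Fintype.mem_piFinset, Finset.mem_finsuppAntidiag]
  simp only [Finset.mem_range]
  constructor
  · rintro ⟨h1, ⟨h2, _⟩, h3⟩
    exact ⟨by omega, h2, fun j => by have := h3 j; omega⟩
  · rintro ⟨h1, h2, h3⟩
    exact ⟨by omega, ⟨h2, Finset.subset_univ _⟩, fun j => by have := h3 j; omega⟩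

lemma phi_injOn (n N b t : ℕ) : Set.InjOn (phi n) (TT n N b t : Set _) := by
  rintro ⟨u, l, w⟩ hp ⟨u', l', w'⟩ hp' h
  rw [mem_coe, mem_TT] at hp hp'
  simp only at hp hp'
  have hl : l = l' := by
    ext j
    have := congrFun h (iL n j)
    simp only [phi, mk_L] at this
    exact_mod_cast this
  have hw : w = w' := by
    funext j
    have := congrFun h (iR n j)
    simp only [phi, mk_R] at this
    exact_mod_cast this
  subst hl
  subst hw
  have : u = u' := by
    have h1 := hp.2.1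
    have h2 := hp'.2.1
    have h3 := hp.1
    have h4 := hp'.1
    omega
  subst this
  rfl

lemma image_phi (n N b t : ℕ) :
    (phi n) '' (TT n N b t : Set _) = {z : Fin (n + n) → ℤ | ConZ n N b (t : ℤ) z} := by
  ext z
  constructor
  · rintro ⟨⟨u, l, w⟩, hp, rfl⟩
    rw [mem_coe, mem_TT] at hp
    obtain ⟨h1, h2, h3⟩ := hp
    simp only at h1 h2 h3
    have hs : ∑ j : Fin n, phi n ⟨u, l, w⟩ (iL n j) = (t : ℤ) - u := by
      have : ∑ j : Fin n, phi n ⟨u, l, w⟩ (iL n j) = ((∑ j : Fin n, l j : ℕ) : ℤ) := by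
        push_cast
        apply Finset.sum_congr rfl
        intro j _
        simp [phi]
      rw [this, h2]
      push_cast [h1]
      ring
    refine ⟨fun j => by simp [phi], by rw [hs]; omega, fun j => by simp [phi], fun j => ?_⟩
    rw [hs]
    have := h3 j
    have h' : ((w j : ℕ) : ℤ) ≤ (N : ℤ) * ((u : ℤ) + (b : ℤ) * (l j : ℤ)) := by exact_mod_cast this
    simp only [phi, mk_L, mk_R]
    calc (w j : ℤ) ≤ _ := h'
      _ = _ := by ring
  · rintro ⟨x1, x2, x3, x4⟩
    have hsn : 0 ≤ ∑ j : Fin n, z (iL n j) := Finset.sum_nonneg (fun j _ => x1 j)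
    let l : Fin n →₀ ℕ := Finsupp.equivFunOnFinite.symm (fun j => (z (iL n j)).toNat)
    have hl : ∀ j, ((l j : ℕ) : ℤ) = z (iL n j) := fun j => Int.toNat_of_nonneg (x1 j)
    let w : Fin n → ℕ := fun j => (z (iR n j)).toNat
    have hw : ∀ j, ((w j : ℕ) : ℤ) = z (iR n j) := fun j => Int.toNat_of_nonneg (x3 j)
    have hls : ((∑ j : Fin n, l j : ℕ) : ℤ) = ∑ j : Fin n, z (iL n j) := by
      push_cast
      exact Finset.sum_congr rfl (fun j _ => hl j)
    refine ⟨⟨t - ∑ j, l j, l, w⟩, ?_, ?_⟩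
    · rw [mem_coe, mem_TT]
      simp only
      have hle : ∑ j, l j ≤ t := by
        have := x2
        rw [← hls] at this
        exact_mod_cast this
      refine ⟨by omega, by omega, fun j => ?_⟩
      have := x4 j
      rw [← hls, ← hl j, ← hw j] at this
      have h5 : ((t - ∑ j, l j : ℕ) : ℤ) = (t : ℤ) - ((∑ j : Fin n, l j : ℕ) : ℤ) := by
        rw [Nat.cast_sub hle]
      rw [← h5] at this
      exact_mod_cast this
    · apply extLR
      · intro j
        simp only [phi, mk_L]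
        exact hl j
      · intro j
        simp only [phi, mk_R]
        exact hw j

lemma ncard_con (n N b t : ℕ) :
    Set.ncard {z : Fin (n + n) → ℤ | ConZ n N b (t : ℤ) z} =
    ∑ u ∈ range (t + 1), ∑ l ∈ finsuppAntidiag (univ : Finset (Fin n)) (t - u),
      ∏ j : Fin n, (N * (u + b * l j) + 1) := by
  rw [← image_phi, (phi_injOn n N b t).ncard_image, Set.ncard_coe_finset, card_TT]

/-- generating series for one coordinate -/
noncomputable def GG (N b u : ℕ) : PowerSeries ℤ :=
  PowerSeries.mk (fun v => ((N * (u + b * v) + 1 : ℕ) : ℤ))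

lemma ncard_series (n N b t : ℕ) :
    ((Set.ncard {z : Fin (n + n) → ℤ | ConZ n N b (t : ℤ) z} : ℕ) : ℤ) =
    ∑ u ∈ range (t + 1), PowerSeries.coeff (t - u) (GG N b u ^ n) := by
  rw [ncard_con]
  push_cast
  apply Finset.sum_congr rfl
  intro u _
  have : GG N b u ^ n = ∏ _j : Fin n, GG N b u := by simp
  rw [this, PowerSeries.coeff_prod]
  apply Finset.sum_congr rfl
  intro l _
  apply Finset.prod_congr rfl
  intro j _
  simp [GG]

lemma lin_mul (a β : ℤ) (G : PowerSeries ℤ) (hG : ∀ v, PowerSeries.coeff v G = a + β * v) :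
    (1 - PowerSeries.X) ^ 2 * G =
    PowerSeries.C a + PowerSeries.C (β - a) * PowerSeries.X := by
  have h1 : (1 - PowerSeries.X) * G = PowerSeries.mk (fun v => if v = 0 then a else β) := by
    ext v
    cases v with
    | zero =>
      have := hG 0
      simp only [sub_mul, one_mul, map_sub, PowerSeries.coeff_zero_X_mul, this]
      simp
    | succ v =>
      rw [sub_mul, one_mul, map_sub, PowerSeries.coeff_succ_X_mul, hG, hG, PowerSeries.coeff_mk]
      simp
      ring
  rw [pow_two, mul_assoc, h1]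
  ext v
  rw [sub_mul, one_mul, map_sub, map_add, PowerSeries.coeff_mk]
  rcases v with _ | _ | v
  · simp
  · rw [PowerSeries.coeff_succ_X_mul, PowerSeries.coeff_succ_mul_X, PowerSeries.coeff_mk,
      PowerSeries.coeff_C, PowerSeries.coeff_C]
    simp
  · rw [PowerSeries.coeff_succ_X_mul, PowerSeries.coeff_succ_mul_X, PowerSeries.coeff_mk,
      PowerSeries.coeff_C, PowerSeries.coeff_C]
    simp

lemma GG_mul (N b u : ℕ) : (1 - PowerSeries.X) ^ 2 * GG N b u =
    PowerSeries.C (1 + N * u : ℤ) + PowerSeries.C ((N * b : ℤ) - (1 + N * u)) * PowerSeries.X := by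
  apply lin_mul
  intro v
  unfold GG
  rw [PowerSeries.coeff_mk]
  push_cast
  ring

lemma coeff_lin_pow (m k : ℕ) (a c : ℤ) :
    PowerSeries.coeff k ((PowerSeries.C a + PowerSeries.C c * PowerSeries.X : PowerSeries ℤ) ^ m)
      = (m.choose k : ℤ) * a ^ (m - k) * c ^ k := by
  rw [add_comm, add_pow, map_sum]
  have : ∀ i ∈ range (m + 1), PowerSeries.coeff k
      ((PowerSeries.C c * PowerSeries.X : PowerSeries ℤ) ^ i * PowerSeries.C a ^ (m - i) * (m.choose i : PowerSeries ℤ))
      = if i = k then (m.choose k : ℤ) * a ^ (m - k) * c ^ k else 0 := by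
    intro i _
    have e : (PowerSeries.C c * PowerSeries.X : PowerSeries ℤ) ^ i * PowerSeries.C a ^ (m - i) * (m.choose i : PowerSeries ℤ)
        = PowerSeries.X ^ i * PowerSeries.C (c ^ i * a ^ (m - i) * (m.choose i : ℤ)) := by
      rw [map_mul, map_mul, map_pow, map_pow]
      simp
      ring
    rw [e, PowerSeries.coeff_X_pow_mul']
    by_cases h : i = k
    · subst h
      simp; ring
    · rw [if_neg h]
      by_cases h' : i ≤ k
      · rw [if_pos h', PowerSeries.coeff_C, if_neg (by omega)]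
      · rw [if_neg h']
  rw [Finset.sum_congr rfl this, Finset.sum_ite_eq']
  by_cases h : k ∈ range (m + 1)
  · rw [if_pos h]
  · rw [if_neg h]
    rw [Finset.mem_range] at h
    rw [Nat.choose_eq_zero_of_lt (by omega)]
    simp

lemma coeff_one_sub_pow (m i : ℕ) :
    PowerSeries.coeff i ((1 - PowerSeries.X : PowerSeries ℤ) ^ m) = (-1) ^ i * (m.choose i : ℤ) := by
  have h : (1 - PowerSeries.X : PowerSeries ℤ) =
      PowerSeries.C 1 + PowerSeries.C (-1) * PowerSeries.X := by
    rw [map_one, map_neg, map_one]; ring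
  rw [h, coeff_lin_pow]
  simp
  ring

/-- the coefficient of `x^k` in `(1-x)(a + c x)^m` -/
def qq (m : ℕ) (a c : ℤ) (k : ℕ) : ℤ :=
  (m.choose k : ℤ) * a ^ (m - k) * c ^ k -
    (if k = 0 then 0 else (m.choose (k - 1) : ℤ) * a ^ (m - (k - 1)) * c ^ (k - 1))

/-- closed formula for the h*-coefficients -/
def hh (n N b k : ℕ) : ℤ :=
  ∑ u ∈ range (k + 1), qq n (1 + N * u : ℤ) ((N * b : ℤ) - (1 + N * u)) (k - u)

lemma coeff_qq (m k : ℕ) (a c : ℤ) :
    PowerSeries.coeff k ((1 - PowerSeries.X) *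
      (PowerSeries.C a + PowerSeries.C c * PowerSeries.X : PowerSeries ℤ) ^ m) = qq m a c k := by
  unfold qq
  rw [sub_mul, one_mul, map_sub, coeff_lin_pow]
  cases k with
  | zero => simp
  | succ k => rw [PowerSeries.coeff_succ_X_mul, coeff_lin_pow]; simp

lemma hstar_formula (n N b k : ℕ) :
    ∑ i ∈ Finset.range (k + 1), (-1 : ℤ) ^ i * (((n + n + 1).choose i : ℕ) : ℤ) *
      ((Set.ncard {z : Fin (n + n) → ℤ | ConZ n N b ((k - i : ℕ) : ℤ) z} : ℕ) : ℤ)
    = hh n N b k := by
  -- the truncated Ehrhart series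
  set F : PowerSeries ℤ := ∑ u ∈ range (k + 1), PowerSeries.X ^ u * GG N b u ^ n with hF
  have hcoef : ∀ m, m ≤ k → PowerSeries.coeff m F =
      ((Set.ncard {z : Fin (n + n) → ℤ | ConZ n N b (m : ℤ) z} : ℕ) : ℤ) := by
    intro m hm
    rw [ncard_series, hF, map_sum]
    rw [← Finset.sum_subset (Finset.range_subset_range.2 (by omega : m + 1 ≤ k + 1))]
    · apply Finset.sum_congr rfl
      intro u hu
      rw [Finset.mem_range] at hu
      rw [PowerSeries.coeff_X_pow_mul', if_pos (by omega)]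
    · intro u _ hu
      rw [Finset.mem_range] at hu
      rw [PowerSeries.coeff_X_pow_mul', if_neg (by omega)]
  have h1 : ∑ i ∈ Finset.range (k + 1), (-1 : ℤ) ^ i * (((n + n + 1).choose i : ℕ) : ℤ) *
      ((Set.ncard {z : Fin (n + n) → ℤ | ConZ n N b ((k - i : ℕ) : ℤ) z} : ℕ) : ℤ)
      = PowerSeries.coeff k ((1 - PowerSeries.X) ^ (n + n + 1) * F) := by
    rw [PowerSeries.coeff_mul, Finset.Nat.sum_antidiagonal_eq_sum_range_succ_mk]
    apply Finset.sum_congr rfl
    intro i hi
    rw [Finset.mem_range] at hi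
    rw [coeff_one_sub_pow, hcoef (k - i) (by omega)]
  rw [h1, hF, Finset.mul_sum, map_sum]
  unfold hh
  apply Finset.sum_congr rfl
  intro u hu
  rw [Finset.mem_range] at hu
  have e : (1 - PowerSeries.X : PowerSeries ℤ) ^ (n + n + 1) * (PowerSeries.X ^ u * GG N b u ^ n)
      = PowerSeries.X ^ u * ((1 - PowerSeries.X) * ((1 - PowerSeries.X) ^ 2 * GG N b u) ^ n) := by
    rw [mul_pow, ← pow_mul, pow_succ, two_mul]
    ring
  rw [e, GG_mul, PowerSeries.coeff_X_pow_mul', if_pos (by omega), coeff_qq]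

end Pool.Agent.Lib_helper99.IDP
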