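import Mathlib

set_option autoImplicit false
open scoped Pointwise
open Finset

namespace Pool.Agent.Lib_helper99.IDP

/-- the `v`-coordinates -/
def iL (n : ℕ) (j : Fin n) : Fin (n + n) := Fin.castAdd n j
/-- the `w`-coordinates -/
def iR (n : ℕ) (j : Fin n) : Fin (n + n) := Fin.natAdd n j
/-- the point with given `v` and `w` -/
def mk (n : ℕ) {α : Type} (v w : Fin n → α) : Fin (n + n) → α := Fin.append v w

@[simp] lemma mk_L (n : ℕ) {α : Type} (v w : Fin n → α) (j : Fin n) :
    mk n v w (iL n j) = v j := Fin.append_left v w j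
@[simp] lemma mk_R (n : ℕ) {α : Type} (v w : Fin n → α) (j : Fin n) :
    mk n v w (iR n j) = w j := Fin.append_right v w j

lemma casesLR (n : ℕ) (i : Fin (n + n)) : (∃ j, i = iL n j) ∨ (∃ j, i = iR n j) := by
  refine Fin.addCases (fun j => Or.inl ⟨j, rfl⟩) (fun j => Or.inr ⟨j, rfl⟩) i

lemma extLR (n : ℕ) {α : Type} {x y : Fin (n + n) → α} (h1 : ∀ j, x (iL n j) = y (iL n j))
    (h2 : ∀ j, x (iR n j) = y (iR n j)) : x = y := by
  funext i
  rcases casesLR n i with ⟨j, rfl⟩ | ⟨j, rfl⟩
  · exact h1 j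
  · exact h2 j

/-- real constraints describing the dilate `t • P` -/
def Con (n N b : ℕ) (t : ℝ) (x : Fin (n + n) → ℝ) : Prop :=
  (∀ j : Fin n, 0 ≤ x (iL n j)) ∧
  (∑ j : Fin n, x (iL n j) ≤ t) ∧
  (∀ j : Fin n, 0 ≤ x (iR n j)) ∧
  (∀ j : Fin n, x (iR n j) ≤
    (N : ℝ) * (t - ∑ i : Fin n, x (iL n i) + (b : ℝ) * x (iL n j)))

/-- integer version -/
def ConZ (n N b : ℕ) (t : ℤ) (x : Fin (n + n) → ℤ) : Prop :=
  (∀ j : Fin n, 0 ≤ x (iL n j)) ∧
  (∑ j : Fin n, x (iL n j) ≤ t) ∧
  (∀ j : Fin n, 0 ≤ x (iR n j)) ∧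
  (∀ j : Fin n, x (iR n j) ≤
    (N : ℤ) * (t - ∑ i : Fin n, x (iL n i) + (b : ℤ) * x (iL n j)))

lemma con_cast (n N b : ℕ) (t : ℤ) (z : Fin (n + n) → ℤ) :
    Con n N b (t : ℝ) (fun i => (z i : ℝ)) ↔ ConZ n N b t z := by
  unfold Con ConZ
  beta_reduce
  constructor
  · rintro ⟨h1, h2, h3, h4⟩
    refine ⟨fun j => by exact_mod_cast h1 j, by exact_mod_cast h2, fun j => by exact_mod_cast h3 j,
      fun j => by exact_mod_cast h4 j⟩
  · rintro ⟨h1, h2, h3, h4⟩
    refine ⟨fun j => by exact_mod_cast h1 j, by exact_mod_cast h2, fun j => by exact_mod_cast h3 j,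
      fun j => by exact_mod_cast h4 j⟩

/-- the vertices -/
def Sv (n N b : ℕ) : Finset (Fin (n + n) → ℤ) :=
  ((Fintype.piFinset (fun _ : Fin n => ({0, (N : ℤ)} : Finset ℤ))).image
      (fun w => mk n (fun _ => 0) w)) ∪
  ((univ : Finset (Fin n)).image (fun j => mk n (Pi.single j 1) (fun _ => 0))) ∪
  ((univ : Finset (Fin n)).image
      (fun j => mk n (Pi.single j 1) (Pi.single j ((N : ℤ) * (b : ℤ)))))

/-- the polytope -/
def PP (n N b : ℕ) : Set (Fin (n + n) → ℝ) :=
  convexHull ℝ ((fun v : Fin (n + n) → ℤ => fun i => (v i : ℝ)) ''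
    (Sv n N b : Set (Fin (n + n) → ℤ)))

lemma PP_convex (n N b : ℕ) : Convex ℝ (PP n N b) := convex_convexHull ℝ _

lemma Sv_nonempty (n N b : ℕ) : (Sv n N b).Nonempty := by
  refine ⟨mk n (fun _ => 0) (fun _ => 0), ?_⟩
  unfold Sv
  rw [mem_union, mem_union]
  left; left
  rw [mem_image]
  exact ⟨fun _ => 0, by simp [Fintype.mem_piFinset], rfl⟩

lemma single_nonneg (n : ℕ) (j i : Fin n) (c : ℤ) (hc : 0 ≤ c) :
    0 ≤ (Pi.single j c : Fin n → ℤ) i := by
  by_cases h : i = j
  · subst h; simpa using hc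
  · simp [Pi.single_eq_of_ne h]

lemma Sv_con (n N b : ℕ) : ∀ z ∈ Sv n N b, ConZ n N b 1 z := by
  intro z hz
  unfold Sv at hz
  rw [mem_union, mem_union] at hz
  rcases hz with (hz | hz) | hz
  · rw [mem_image] at hz
    obtain ⟨w, hw, rfl⟩ := hz
    rw [Fintype.mem_piFinset] at hw
    refine ⟨fun j => by simp, by simp, fun j => ?_, fun j => ?_⟩
    · have := hw j
      simp only [mem_insert, mem_singleton] at this
      rcases this with h | h <;> simp [h]
    · have := hw j
      simp only [mem_insert, mem_singleton] at this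
      rcases this with h | h <;> simp [h]
  · rw [mem_image] at hz
    obtain ⟨j, _, rfl⟩ := hz
    refine ⟨fun i => ?_, ?_, fun i => by simp, fun i => ?_⟩
    · simpa using single_nonneg n j i 1 (by norm_num)
    · simp
    · have : 0 ≤ (Pi.single j (1 : ℤ) : Fin n → ℤ) i := single_nonneg n j i 1 (by norm_num)
      simp
      positivity
  · rw [mem_image] at hz
    obtain ⟨j, _, rfl⟩ := hz
    refine ⟨fun i => ?_, ?_, fun i => ?_, fun i => ?_⟩
    · simpa using single_nonneg n j i 1 (by norm_num)
    · simp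
    · simpa using single_nonneg n j i _ (by positivity)
    · simp only [mk_L, mk_R]
      by_cases h : i = j
      · subst h; simp
      · simp [Pi.single_eq_of_ne h]

lemma con_convex (n N b : ℕ) (t : ℝ) : Convex ℝ {x | Con n N b t x} := by
  intro x hx y hy a c ha hc hac
  obtain ⟨x1, x2, x3, x4⟩ := hx
  obtain ⟨y1, y2, y3, y4⟩ := hy
  have hs : ∑ j : Fin n, (a • x + c • y) (iL n j)
      = a * ∑ j : Fin n, x (iL n j) + c * ∑ j : Fin n, y (iL n j) := by
    simp only [Pi.add_apply, Pi.smul_apply, smul_eq_mul, Finset.sum_add_distrib, Finset.mul_sum]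
  have hc' : c = 1 - a := by linarith
  refine ⟨fun j => ?_, ?_, fun j => ?_, fun j => ?_⟩
  · have := mul_nonneg ha (x1 j)
    have := mul_nonneg hc (y1 j)
    simp only [Pi.add_apply, Pi.smul_apply, smul_eq_mul]
    linarith
  · rw [hs]
    have h1 := mul_le_mul_of_nonneg_left x2 ha
    have h2 := mul_le_mul_of_nonneg_left y2 hc
    have : a * t + c * t = t := by rw [← add_mul, hac, one_mul]
    linarith
  · have := mul_nonneg ha (x3 j)
    have := mul_nonneg hc (y3 j)
    simp only [Pi.add_apply, Pi.smul_apply, smul_eq_mul]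
    linarith
  · rw [hs]
    have h1 := mul_le_mul_of_nonneg_left (x4 j) ha
    have h2 := mul_le_mul_of_nonneg_left (y4 j) hc
    simp only [Pi.add_apply, Pi.smul_apply, smul_eq_mul]
    have h3 : (N : ℝ) * (t - (a * ∑ i : Fin n, x (iL n i)
        + c * ∑ i : Fin n, y (iL n i))
        + (b : ℝ) * (a * x (iL n j) + c * y (iL n j)))
        = a * ((N : ℝ) * (t - ∑ i : Fin n, x (iL n i) + (b : ℝ) * x (iL n j)))
        + c * ((N : ℝ) * (t - ∑ i : Fin n, y (iL n i)
          + (b : ℝ) * y (iL n j))) := by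
      subst hc'
      ring
    linarith

lemma PP_sub (n N b : ℕ) {x : Fin (n + n) → ℝ} (hx : x ∈ PP n N b) : Con n N b 1 x := by
  have : PP n N b ⊆ {x | Con n N b 1 x} := by
    apply convexHull_min _ (con_convex n N b 1)
    rintro _ ⟨z, hz, rfl⟩
    have := (con_cast n N b 1 z).2 (Sv_con n N b z hz)
    simpa using this
  exact this hx

lemma mk_comb {n : ℕ} (a c : ℝ) (p q r s : Fin n → ℝ) :
    a • mk n p q + c • mk n r s = mk n (a • p + c • r) (a • q + c • s) := by
  apply extLR <;> intro j <;> simp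

lemma mem_cube (n N b : ℕ) (y : Fin n → ℝ) (h0 : ∀ j, 0 ≤ y j) (h1 : ∀ j, y j ≤ N) :
    mk n (0 : Fin n → ℝ) y ∈ PP n N b := by
  have hconv : Convex ℝ {y : Fin n → ℝ | mk n (0 : Fin n → ℝ) y ∈ PP n N b} := by
    intro p hp q hq a c ha hc hac
    have := PP_convex n N b hp hq ha hc hac
    rw [mk_comb] at this
    simpa using this
  have hsub : ((Set.univ : Set (Fin n)).pi (fun _ => ({0, (N : ℝ)} : Set ℝ))) ⊆
      {y : Fin n → ℝ | mk n (0 : Fin n → ℝ) y ∈ PP n N b} := by
    intro w hw
    apply subset_convexHull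
    classical
    refine ⟨mk n (fun _ => 0) (fun j => if w j = 0 then 0 else (N : ℤ)), ?_, ?_⟩
    · unfold Sv
      rw [mem_coe, mem_union, mem_union]
      left; left
      rw [mem_image]
      refine ⟨fun j => if w j = 0 then 0 else (N : ℤ), ?_, rfl⟩
      rw [Fintype.mem_piFinset]
      intro j
      by_cases h : w j = 0 <;> simp [h]
    · apply extLR
      · intro j; simp
      · intro i
        beta_reduce
        rw [mk_R, mk_R]
        have := hw i (Set.mem_univ i)
        simp only [Set.mem_insert_iff, Set.mem_singleton_iff] at this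
        by_cases h : w i = 0
        · simp [h]
        · rcases this with h' | h'
          · exact absurd h' h
          · rw [if_neg h, h']; simp
  have hmem : y ∈ convexHull ℝ ((Set.univ : Set (Fin n)).pi (fun _ => ({0, (N : ℝ)} : Set ℝ))) := by
    apply mem_convexHull_pi
    intro j _
    rw [convexHull_pair, segment_eq_Icc (by positivity)]
    exact ⟨h0 j, h1 j⟩
  exact convexHull_min hsub hconv hmem

lemma mem_seg (n N b : ℕ) (j : Fin n) (s : ℝ) (h0 : 0 ≤ s) (h1 : s ≤ 1) :
    mk n (Pi.single j (1 : ℝ)) (Pi.single j (s * ((N : ℝ) * b))) ∈ PP n N b := by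
  have hA : mk n (Pi.single j (1 : ℝ)) (0 : Fin n → ℝ) ∈ PP n N b := by
    apply subset_convexHull
    refine ⟨mk n (Pi.single j 1) (fun _ => 0), ?_, ?_⟩
    · unfold Sv
      rw [mem_coe, mem_union, mem_union]
      left; right
      rw [mem_image]
      exact ⟨j, mem_univ _, rfl⟩
    · apply extLR
      · intro i
        by_cases h : i = j
        · subst h; simp
        · simp [Pi.single_eq_of_ne h]
      · intro i; simp
  have hB : mk n (Pi.single j (1 : ℝ)) (Pi.single j ((N : ℝ) * b)) ∈ PP n N b := by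
    apply subset_convexHull
    refine ⟨mk n (Pi.single j 1) (Pi.single j ((N : ℤ) * (b : ℤ))), ?_, ?_⟩
    · unfold Sv
      rw [mem_coe, mem_union, mem_union]
      right
      rw [mem_image]
      exact ⟨j, mem_univ _, rfl⟩
    · apply extLR
      · intro i
        by_cases h : i = j
        · subst h; simp
        · simp [Pi.single_eq_of_ne h]
      · intro i
        by_cases h : i = j
        · subst h; simp
        · simp [Pi.single_eq_of_ne h]
  have := PP_convex n N b hA hB (sub_nonneg.2 h1) h0 (by ring)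
  rw [mk_comb] at this
  have e1 : (1 - s) • (Pi.single j (1 : ℝ) : Fin n → ℝ) + s • (Pi.single j (1 : ℝ) : Fin n → ℝ)
      = Pi.single j (1 : ℝ) := by
    rw [← add_smul]; simp
  have e2 : (1 - s) • (0 : Fin n → ℝ) + s • (Pi.single j ((N : ℝ) * b) : Fin n → ℝ)
      = Pi.single j (s * ((N : ℝ) * b)) := by
    funext i
    by_cases h : i = j
    · subst h; simp
    · simp [Pi.single_eq_of_ne h]
  rw [e1, e2] at this
  exact this

lemma sub_PP (n N b : ℕ) {x : Fin (n + n) → ℝ} (hx : Con n N b 1 x) : x ∈ PP n N b := by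
  obtain ⟨x1, x2, x3, x4⟩ := hx
  set u : ℝ := 1 - ∑ j : Fin n, x (iL n j) with hu
  have hu0 : 0 ≤ u := by linarith
  -- denominators
  set den : Fin n → ℝ := fun j => (N : ℝ) * (u + b * x (iL n j)) with hden
  have hden0 : ∀ j, 0 ≤ den j := fun j => by
    have := x1 j
    simp only [hden]
    positivity
  set ρ : Fin n → ℝ := fun j => x (iR n j) / den j with hρ
  have hρ0 : ∀ j, 0 ≤ ρ j := fun j => div_nonneg (x3 j) (hden0 j)
  have hρ1 : ∀ j, ρ j ≤ 1 := fun j => div_le_one_of_le₀ (x4 j) (hden0 j)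
  have hρx : ∀ j, ρ j * den j = x (iR n j) := by
    intro j
    by_cases h : den j = 0
    · have h1 := x4 j
      have h2 := x3 j
      have h3 : (N : ℝ) * (u + b * x (iL n j)) = 0 := h
      rw [h3] at h1
      rw [h, mul_zero]; linarith
    · exact div_mul_cancel₀ _ h
  let w : Option (Fin n) → ℝ := fun o => o.elim u (fun j => x (iL n j))
  let z : Option (Fin n) → (Fin (n + n) → ℝ) := fun o => o.elim
    (mk n (0 : Fin n → ℝ) (fun j => ρ j * N))
    (fun j => mk n (Pi.single j (1 : ℝ)) (Pi.single j (ρ j * ((N : ℝ) * b))))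
  have hmain : ∑ o : Option (Fin n), w o • z o ∈ PP n N b := by
    apply (PP_convex n N b).sum_mem
    · intro o _
      cases o with
      | none => exact hu0
      | some j => exact x1 j
    · rw [Fintype.sum_option]
      simp only [w, Option.elim]
      rw [hu]; ring
    · intro o _
      cases o with
      | none =>
        apply mem_cube
        · intro j; exact mul_nonneg (hρ0 j) (by positivity)
        · intro j; exact mul_le_of_le_one_left (by positivity) (hρ1 j)
      | some j => exact mem_seg n N b j (ρ j) (hρ0 j) (hρ1 j)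
  have hx : ∑ o : Option (Fin n), w o • z o = x := by
    rw [Fintype.sum_option]
    simp only [w, z, Option.elim]
    apply extLR
    · intro i
      rw [Pi.add_apply, Finset.sum_apply]
      simp [Pi.single_apply]
    · intro i
      rw [Pi.add_apply, Finset.sum_apply]
      simp only [Pi.smul_apply, mk_R, smul_eq_mul, Pi.single_apply, mul_ite, mul_zero]
      rw [Finset.sum_ite_eq, if_pos (mem_univ _)]
      rw [← hρx i]
      simp only [hden]
      ring
  rw [← hx]; exact hmain

lemma mem_PP (n N b : ℕ) (x : Fin (n + n) → ℝ) : x ∈ PP n N b ↔ Con n N b 1 x :=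
  ⟨PP_sub n N b, sub_PP n N b⟩

lemma PP_nonempty (n N b : ℕ) : (PP n N b).Nonempty :=
  ⟨mk n (0 : Fin n → ℝ) 0, mem_cube n N b 0 (fun _ => le_rfl) (fun _ => by simp)⟩

lemma con_smul (n N b : ℕ) (c t : ℝ) (hc : 0 ≤ c) (x : Fin (n + n) → ℝ) (h : Con n N b t x) :
    Con n N b (c * t) (c • x) := by
  obtain ⟨x1, x2, x3, x4⟩ := h
  have hs : ∑ j : Fin n, (c • x) (iL n j) = c * ∑ j : Fin n, x (iL n j) := by
    simp only [Pi.smul_apply, smul_eq_mul, Finset.mul_sum]
  refine ⟨fun j => mul_nonneg hc (x1 j), ?_, fun j => mul_nonneg hc (x3 j), fun j => ?_⟩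
  · rw [hs]; exact mul_le_mul_of_nonneg_left x2 hc
  · rw [hs]
    have := mul_le_mul_of_nonneg_left (x4 j) hc
    simp only [Pi.smul_apply, smul_eq_mul]
    calc c * x (iR n j) ≤ _ := this
      _ = _ := by ring

lemma mem_smul_PP (n N b k : ℕ) (x : Fin (n + n) → ℝ) :
    x ∈ (k : ℝ) • PP n N b ↔ Con n N b (k : ℝ) x := by
  constructor
  · rintro ⟨p, hp, rfl⟩
    have := con_smul n N b (k : ℝ) 1 (by positivity) p (PP_sub n N b hp)
    simpa using this
  · intro h
    rcases Nat.eq_zero_or_pos k with hk | hk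
    · subst hk
      obtain ⟨x1, x2, x3, x4⟩ := h
      simp only [Nat.cast_zero] at x2 x4 ⊢
      rw [Set.zero_smul_set (PP_nonempty n N b)]
      have hs : ∑ j : Fin n, x (iL n j) = 0 :=
        le_antisymm x2 (Finset.sum_nonneg (fun j _ => x1 j))
      have hv : ∀ j, x (iL n j) = 0 := by
        intro j
        exact (Finset.sum_eq_zero_iff_of_nonneg (fun j _ => x1 j)).1 hs j (mem_univ _)
      have hw : ∀ j, x (iR n j) = 0 := by
        intro j
        have := x4 j
        rw [hs, hv j] at this
        simp at this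
        exact le_antisymm this (x3 j)
      rw [Set.mem_zero]
      apply extLR
      · intro j; rw [hv j]; rfl
      · intro j; rw [hw j]; rfl
    · have hk' : (0 : ℝ) < k := by exact_mod_cast hk
      refine ⟨(k : ℝ)⁻¹ • x, ?_, ?_⟩
      · apply sub_PP
        have := con_smul n N b (k : ℝ)⁻¹ k (by positivity) x h
        rwa [inv_mul_cancel₀ hk'.ne'] at this
      · show (k : ℝ) • ((k : ℝ)⁻¹ • x) = x
        rw [smul_smul, mul_inv_cancel₀ hk'.ne', one_smul]

lemma mem_smul_PP_int (n N b k : ℕ) (z : Fin (n + n) → ℤ) :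
    (fun i => (z i : ℝ)) ∈ (k : ℝ) • PP n N b ↔ ConZ n N b (k : ℤ) z := by
  rw [mem_smul_PP, ← con_cast]
  simp

lemma mem_PP_int (n N b : ℕ) (z : Fin (n + n) → ℤ) :
    (fun i => (z i : ℝ)) ∈ PP n N b ↔ ConZ n N b 1 z := by
  rw [mem_PP, ← con_cast]
  simp

/-- one step of the integer decomposition -/
lemma idp_step (n N b k : ℕ) (z : Fin (n + n) → ℤ) (h : ConZ n N b ((k : ℤ) + 1) z) :
    ∃ p : Fin (n + n) → ℤ, ConZ n N b 1 p ∧ ConZ n N b (k : ℤ) (z - p) := by
  obtain ⟨x1, x2, x3, x4⟩ := h
  have hN : (0 : ℤ) ≤ N := by positivity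
  have hb : (0 : ℤ) ≤ b := by positivity
  by_cases hu : ∑ j : Fin n, z (iL n j) ≤ k
  · refine ⟨mk n (fun _ => 0) (fun j => min (z (iR n j)) N), ?_, ?_⟩
    · refine ⟨fun j => by simp, by simp, fun j => ?_, fun j => ?_⟩
      · rw [mk_R]; exact le_min (x3 j) hN
      · simp
    · have hs : ∑ j : Fin n, (z - mk n (fun _ => 0) (fun j => min (z (iR n j)) (N : ℤ))) (iL n j)
          = ∑ j : Fin n, z (iL n j) := by
        apply Finset.sum_congr rfl; intro j _; simp
      refine ⟨fun j => by simpa using x1 j, by rw [hs]; exact hu, fun j => ?_, fun j => ?_⟩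
      · rw [Pi.sub_apply, mk_R, sub_nonneg]; exact min_le_left _ _
      · rw [hs, Pi.sub_apply, Pi.sub_apply, mk_R, mk_L, sub_zero]
        have h4 := x4 j
        rcases le_total (z (iR n j)) N with h | h
        · rw [min_eq_left h, sub_self]
          apply mul_nonneg hN
          have := mul_nonneg hb (x1 j)
          linarith
        · rw [min_eq_right h]
          nlinarith [h4]
  · have hs : ∑ j : Fin n, z (iL n j) = (k : ℤ) + 1 := by
      push Not at hu
      omega
    have hex : ∃ j : Fin n, 1 ≤ z (iL n j) := by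
      by_contra hcon
      push Not at hcon
      have : ∑ j : Fin n, z (iL n j) ≤ 0 := Finset.sum_nonpos (fun j _ => by have := hcon j; omega)
      omega
    obtain ⟨j0, hj0⟩ := hex
    refine ⟨mk n (Pi.single j0 1) (Pi.single j0 (min (z (iR n j0)) ((N : ℤ) * b))), ?_, ?_⟩
    · refine ⟨fun i => ?_, ?_, fun i => ?_, fun i => ?_⟩
      · rw [mk_L]; exact single_nonneg n j0 i 1 (by norm_num)
      · simp
      · rw [mk_R]; exact single_nonneg n j0 i _ (le_min (x3 j0) (by positivity))
      · simp only [mk_L, mk_R]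
        by_cases h : i = j0
        · subst h; simp
        · simp [Pi.single_eq_of_ne h]
    · have hs' : ∑ j : Fin n, (z - mk n (Pi.single j0 1)
          (Pi.single j0 (min (z (iR n j0)) ((N : ℤ) * b)))) (iL n j) = (k : ℤ) := by
        simp only [Pi.sub_apply, mk_L, Finset.sum_sub_distrib, hs]
        simp
      refine ⟨fun i => ?_, ?_, fun i => ?_, fun i => ?_⟩
      · rw [Pi.sub_apply, mk_L]
        by_cases h : i = j0
        · subst h; simp; exact hj0
        · simp [Pi.single_eq_of_ne h]; exact x1 i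
      · rw [hs']
      · rw [Pi.sub_apply, mk_R]
        by_cases h : i = j0
        · subst h; simp
        · simp [Pi.single_eq_of_ne h]; exact x3 i
      · rw [hs', Pi.sub_apply, Pi.sub_apply, mk_R, mk_L]
        have h4 := x4 i
        rw [hs] at h4
        by_cases h : i = j0
        · subst h
          rw [Pi.single_eq_same, Pi.single_eq_same]
          rcases le_total (z (iR n i)) ((N : ℤ) * b) with h' | h'
          · rw [min_eq_left h', sub_self]
            apply mul_nonneg hN
            have := mul_nonneg hb (sub_nonneg.2 hj0)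
            linarith
          · rw [min_eq_right h']
            nlinarith [h4]
        · rw [Pi.single_eq_of_ne h, Pi.single_eq_of_ne h]
          simp only [sub_zero]
          nlinarith [h4]

lemma con_zero (n N b : ℕ) (z : Fin (n + n) → ℤ) (h : ConZ n N b 0 z) : z = 0 := by
  obtain ⟨x1, x2, x3, x4⟩ := h
  have hs : ∑ j : Fin n, z (iL n j) = 0 :=
    le_antisymm x2 (Finset.sum_nonneg (fun j _ => x1 j))
  have hv : ∀ j, z (iL n j) = 0 := by
    intro j
    exact (Finset.sum_eq_zero_iff_of_nonneg (fun j _ => x1 j)).1 hs j (mem_univ _)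
  have hw : ∀ j, z (iR n j) = 0 := by
    intro j
    have := x4 j
    rw [hs, hv j] at this
    simp at this
    exact le_antisymm this (x3 j)
  apply extLR
  · intro j; rw [hv j]; rfl
  · intro j; rw [hw j]; rfl

/-- the integer decomposition property -/
lemma idp (n N b k : ℕ) : ∀ z : Fin (n + n) → ℤ, ConZ n N b (k : ℤ) z →
    ∃ f : Fin k → (Fin (n + n) → ℤ), (∀ j, ConZ n N b 1 (f j)) ∧ ∑ j, f j = z := by
  induction k with
  | zero =>
    intro z hz
    refine ⟨fun j => j.elim0, fun j => j.elim0, ?_⟩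
    have : z = 0 := con_zero n N b z (by simpa using hz)
    rw [this]; simp
  | succ k ih =>
    intro z hz
    have hz' : ConZ n N b ((k : ℤ) + 1) z := by simpa using hz
    obtain ⟨p, hp, hq⟩ := idp_step n N b k z hz'
    obtain ⟨f, hf, hfs⟩ := ih (z - p) hq
    refine ⟨Fin.cons p f, ?_, ?_⟩
    · intro j
      refine Fin.cases ?_ (fun i => ?_) j
      · simpa using hp
      · simpa using hf i
    · rw [Fin.sum_univ_succ]
      simp only [Fin.cons_zero, Fin.cons_succ]
      rw [hfs]; abel

/-- the polytope is full-dimensional -/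
lemma dim_PP (n N b : ℕ) (hN : 0 < N) :
    Module.finrank ℝ (vectorSpan ℝ (PP n N b)) = n + n := by
  have h0 : mk n (0 : Fin n → ℝ) 0 ∈ PP n N b :=
    mem_cube n N b 0 (fun _ => le_rfl) (fun _ => by simp)
  have hL : ∀ j, (Pi.single (iL n j) (1 : ℝ) : Fin (n + n) → ℝ) ∈ vectorSpan ℝ (PP n N b) := by
    intro j
    have h1 := mem_seg n N b j 0 le_rfl zero_le_one
    have := vsub_mem_vectorSpan ℝ h1 h0
    convert this using 1
    apply extLR
    · intro i
      rw [vsub_eq_sub, Pi.sub_apply, mk_L, mk_L]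
      by_cases h : i = j
      · subst h; simp
      · have : iL n i ≠ iL n j := fun hc => h (Fin.castAdd_injective n n hc)
        simp [Pi.single_eq_of_ne h, Pi.single_eq_of_ne this]
    · intro i
      rw [vsub_eq_sub, Pi.sub_apply, mk_R, mk_R]
      have : iR n i ≠ iL n j := by
        intro hc
        have := congrArg Fin.val hc
        simp only [iR, iL, Fin.val_natAdd, Fin.val_castAdd] at this
        have := j.isLt
        omega
      simp [Pi.single_eq_of_ne this]
  have hR : ∀ j, (Pi.single (iR n j) (1 : ℝ) : Fin (n + n) → ℝ) ∈ vectorSpan ℝ (PP n N b) := by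
    intro j
    have h1 : mk n (0 : Fin n → ℝ) (Pi.single j (1 : ℝ)) ∈ PP n N b := by
      apply mem_cube
      · intro i
        by_cases h : i = j
        · subst h; simp
        · simp [Pi.single_eq_of_ne h]
      · intro i
        have hN1 : (1 : ℝ) ≤ N := by exact_mod_cast hN
        by_cases h : i = j
        · subst h; simpa using hN1
        · simp [Pi.single_eq_of_ne h]
    have := vsub_mem_vectorSpan ℝ h1 h0
    convert this using 1
    apply extLR
    · intro i
      rw [vsub_eq_sub, Pi.sub_apply, mk_L, mk_L]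
      have : iL n i ≠ iR n j := by
        intro hc
        have := congrArg Fin.val hc
        simp only [iR, iL, Fin.val_natAdd, Fin.val_castAdd] at this
        have := i.isLt
        omega
      simp [Pi.single_eq_of_ne this]
    · intro i
      rw [vsub_eq_sub, Pi.sub_apply, mk_R, mk_R]
      by_cases h : i = j
      · subst h; simp
      · have : iR n i ≠ iR n j := by
          intro hc
          apply h
          have := congrArg Fin.val hc
          simp only [iR, Fin.val_natAdd] at this
          exact Fin.ext (by omega)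
        simp [Pi.single_eq_of_ne h, Pi.single_eq_of_ne this]
  have htop : vectorSpan ℝ (PP n N b) = ⊤ := by
    rw [eq_top_iff, ← (Pi.basisFun ℝ (Fin (n + n))).span_eq, Submodule.span_le]
    rintro _ ⟨i, rfl⟩
    rw [Pi.basisFun_apply]
    rcases casesLR n i with ⟨j, rfl⟩ | ⟨j, rfl⟩
    · exact hL j
    · exact hR j
  rw [htop, finrank_top]
  simp

end Pool.Agent.Lib_helper99.IDP
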