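import Pool.Agent.Lib_helper99.IDP.Count

set_option autoImplicit false
open Finset

namespace Pool.Agent.Lib_helper99.IDP

lemma num1 : hh 18 1000 14 17 < hh 18 1000 14 16 := by
  decide +kernel

lemma num2 : hh 18 1000 14 17 < hh 18 1000 14 18 := by
  decide +kernel

end Pool.Agent.Lib_helper99.IDP
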