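import Pool.Agent.Lib_helper99.IDP.Num

set_option autoImplicit false
open Finset

namespace Pool.Agent.Lib_helper99.IDP

/-- the series of the `m`-th powers times `(1-x)^(m+1)` is a polynomial of degree at most `m` -/
lemma eulerian_coeff (m k : ℕ) (hk : m < k) :
    PowerSeries.coeff k ((1 - PowerSeries.X : PowerSeries ℤ) ^ (m + 1) *
      PowerSeries.mk (fun u : ℕ => (u : ℤ) ^ m)) = 0 := by
  rw [PowerSeries.coeff_mul, Finset.Nat.sum_antidiagonal_eq_sum_range_succ_mk]
  simp only [coeff_one_sub_pow, PowerSeries.coeff_mk]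
  have h := congrFun (fwdDiff_iter_pow_eq_zero_of_lt (R := ℤ) (Nat.lt_succ_self m))
    ((k : ℤ) - (m + 1))
  rw [fwdDiff_iter_eq_sum_shift] at h
  simp only [Pi.zero_apply] at h
  rw [← h]
  symm
  rw [← Finset.sum_range_reflect]
  rw [← Finset.sum_subset (Finset.range_subset_range.2 (by omega : m.succ + 1 ≤ k + 1))]
  · apply Finset.sum_congr rfl
    intro x hx
    rw [Finset.mem_range] at hx
    have e1 : m.succ + 1 - 1 - x = m + 1 - x := by omega
    have e2 : m.succ - (m + 1 - x) = x := by omega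
    rw [e1, e2, Nat.succ_eq_add_one, Nat.choose_symm (by omega : x ≤ m + 1)]
    have e3 : ((k : ℤ) - (m + 1) + (m + 1 - x) • (1 : ℤ)) = ((k - x : ℕ) : ℤ) := by
      rw [nsmul_eq_mul, Nat.cast_sub (by omega), Nat.cast_sub (by omega)]
      push_cast
      ring
    rw [e3, smul_eq_mul]
  · intro x _ hx
    rw [Finset.mem_range] at hx
    rw [Nat.choose_eq_zero_of_lt (by omega : m + 1 < x)]
    simp

/-- the h*-coefficients beyond `n` vanish -/
lemma hh_eq_zero (n N b k : ℕ) (hk : n < k) : hh n N b k = 0 := by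
  have hb : ∀ u : ℕ, (1 - PowerSeries.X) *
      (PowerSeries.C (1 + N * u : ℤ) + PowerSeries.C ((N * b : ℤ) - (1 + N * u)) * PowerSeries.X :
        PowerSeries ℤ) ^ n
      = ∑ m ∈ range (n + 1), PowerSeries.C ((u : ℤ) ^ m) *
        (PowerSeries.C ((N : ℤ) ^ m * (n.choose m : ℤ)) * ((1 - PowerSeries.X) ^ (m + 1) *
          (PowerSeries.C 1 + PowerSeries.C ((N * b : ℤ) - 1) * PowerSeries.X) ^ (n - m))) := by
    intro u
    have e : (PowerSeries.C (1 + N * u : ℤ) +
        PowerSeries.C ((N * b : ℤ) - (1 + N * u)) * PowerSeries.X : PowerSeries ℤ)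
        = PowerSeries.C ((N : ℤ) * u) * (1 - PowerSeries.X) +
          (PowerSeries.C 1 + PowerSeries.C ((N * b : ℤ) - 1) * PowerSeries.X) := by
      simp only [map_add, map_sub, map_mul, map_one]
      ring
    rw [e, add_pow, Finset.mul_sum]
    apply Finset.sum_congr rfl
    intro m _
    rw [mul_pow, ← map_pow, mul_pow]
    have e2 : ((n.choose m : ℕ) : PowerSeries ℤ) = PowerSeries.C (n.choose m : ℤ) := by simp
    rw [e2]
    simp only [map_mul]
    ring
  have h1 : hh n N b k = ∑ m ∈ range (n + 1), PowerSeries.coeff k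
      (PowerSeries.mk (fun u : ℕ => (u : ℤ) ^ m) *
      (PowerSeries.C ((N : ℤ) ^ m * (n.choose m : ℤ)) * ((1 - PowerSeries.X) ^ (m + 1) *
          (PowerSeries.C 1 + PowerSeries.C ((N * b : ℤ) - 1) * PowerSeries.X) ^ (n - m)))) := by
    unfold hh
    simp only [PowerSeries.coeff_mul k (PowerSeries.mk _),
      Finset.Nat.sum_antidiagonal_eq_sum_range_succ_mk, PowerSeries.coeff_mk]
    rw [Finset.sum_comm]
    apply Finset.sum_congr rfl
    intro u _
    rw [← coeff_qq, hb, map_sum]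
    apply Finset.sum_congr rfl
    intro m _
    rw [PowerSeries.coeff_C_mul]
  rw [h1]
  apply Finset.sum_eq_zero
  intro m hm
  rw [Finset.mem_range] at hm
  have e3 : PowerSeries.mk (fun u : ℕ => (u : ℤ) ^ m) *
      (PowerSeries.C ((N : ℤ) ^ m * (n.choose m : ℤ)) * ((1 - PowerSeries.X) ^ (m + 1) *
          (PowerSeries.C 1 + PowerSeries.C ((N * b : ℤ) - 1) * PowerSeries.X) ^ (n - m)))
      = PowerSeries.C ((N : ℤ) ^ m * (n.choose m : ℤ)) * (((1 - PowerSeries.X) ^ (m + 1) *
        PowerSeries.mk (fun u : ℕ => (u : ℤ) ^ m)) *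
        (PowerSeries.C 1 + PowerSeries.C ((N * b : ℤ) - 1) * PowerSeries.X) ^ (n - m)) := by
    ring
  rw [e3, PowerSeries.coeff_C_mul, PowerSeries.coeff_mul]
  rw [Finset.sum_eq_zero, mul_zero]
  rintro ⟨i, j⟩ hij
  rw [Finset.HasAntidiagonal.mem_antidiagonal] at hij
  simp only at hij ⊢
  by_cases hi : m < i
  · rw [eulerian_coeff m i hi, zero_mul]
  · rw [coeff_lin_pow, Nat.choose_eq_zero_of_lt (by omega : n - m < j)]
    simp

/-- the h*-polynomial -/
noncomputable def hpoly (n N b : ℕ) : Polynomial ℤ :=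
  ∑ k ∈ range (n + 1), Polynomial.monomial k (hh n N b k)

lemma hpoly_coeff (n N b k : ℕ) : (hpoly n N b).coeff k = hh n N b k := by
  unfold hpoly
  rw [Polynomial.finsetSum_coeff]
  simp only [Polynomial.coeff_monomial]
  rw [Finset.sum_ite_eq']
  by_cases h : k ∈ range (n + 1)
  · rw [if_pos h]
  · rw [if_neg h]
    rw [Finset.mem_range] at h
    rw [hh_eq_zero n N b k (by omega)]

lemma hpoly_deg (n N b : ℕ) : (hpoly n N b).natDegree ≤ n := by
  rw [Polynomial.natDegree_le_iff_coeff_eq_zero]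
  intro k hk
  rw [hpoly_coeff, hh_eq_zero n N b k hk]

lemma hpoly_series (n N b : ℕ) :
    PowerSeries.mk (fun t : ℕ =>
      ((Set.ncard {z : Fin (n + n) → ℤ | ConZ n N b (t : ℤ) z} : ℕ) : ℤ)) *
        (1 - PowerSeries.X) ^ (n + n + 1) = (hpoly n N b : PowerSeries ℤ) := by
  ext k
  rw [Polynomial.coeff_coe, hpoly_coeff, ← hstar_formula, mul_comm, PowerSeries.coeff_mul,
    Finset.Nat.sum_antidiagonal_eq_sum_range_succ_mk]
  apply Finset.sum_congr rfl
  intro i _
  rw [coeff_one_sub_pow, PowerSeries.coeff_mk]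

end Pool.Agent.Lib_helper99.IDP
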